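import Pool.Agent.Y342.EFF.Base

/-!
# Every action of a finite group on a finite set extends to a Steiner 2-design
-/

namespace Pool.Agent.Y342.EFF

open Finset Pool.Agent.Helper621

theorem ext_zero (k : ℕ) (hk : 3 ≤ k) (G Ω : Type) [Group G] [Finite G] [Finite Ω] [MulAction G Ω]
    (N : ℕ) :
    ∃ (v : ℕ) (B : Finset (Finset (Fin v))), N ≤ v ∧ k ≤ v ∧ (∀ b ∈ B, b.card = k) ∧
      (∀ x y : Fin v, x ≠ y → ∃! b, b ∈ B ∧ x ∈ b ∧ y ∈ b) ∧
      ∃ ψ : G →* Equiv.Perm (Fin v), Function.Injective ψ ∧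
        (∀ g, B.image (fun b => b.image (ψ g)) = B) ∧
        ∃ e : Ω → Fin v, Function.Injective e ∧ ∀ (g : G) (ω : Ω), e (g • ω) = ψ g (e ω) := by
  classical
  have : Fintype Ω := Fintype.ofFinite Ω
  have : Fintype G := Fintype.ofFinite G
  obtain ⟨F, W, _, _, _, ⟨w0⟩, hF, 𝓑, h1, h2, h3⟩ := main_set k hk G (N + Fintype.card Ω)
  have hne : Nonempty W := ⟨w0⟩
  let X := Option ((G → F) × W)
  let e : X ≃ Fin (Fintype.card X) := Fintype.equivFin X
  have hmm : ∀ b : Finset X, (b.map e.toEmbedding).map e.symm.toEmbedding = b := by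
    intro b
    ext x
    simp
  have hmm' : ∀ b : Finset (Fin (Fintype.card X)),
      (b.map e.symm.toEmbedding).map e.toEmbedding = b := by
    intro b
    ext x
    simp
  let ψ : G →* Equiv.Perm (Fin (Fintype.card X)) :=
    { toFun := fun g => (e.symm.trans (pointHom G F W g)).trans e
      map_one' := by ext x; simp
      map_mul' := fun g h => by ext x; simp }
  -- an equivariant injection of `Ω` into the points
  obtain ⟨code, hcode⟩ : ∃ code : Ω → F, Function.Injective code := by
    have : Fintype.card Ω ≤ Fintype.card F := by omega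
    obtain ⟨c⟩ := Function.Embedding.nonempty_of_card_le this
    exact ⟨c, c.injective⟩
  let pt : Ω → X := fun ω => some (fun x : G => code (x⁻¹ • ω), w0)
  have hpt : Function.Injective pt := by
    intro ω ω' h
    have h4 : (fun x : G => code (x⁻¹ • ω)) = fun x : G => code (x⁻¹ • ω') := by
      have := Option.some.inj h
      exact congrArg Prod.fst this
    have h5 := congrFun h4 1
    simp only [inv_one, one_smul] at h5
    exact hcode h5
  have hpt2 : ∀ (g : G) (ω : Ω), pt (g • ω) = pointHom G F W g (pt ω) := by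
    intro g ω
    simp only [pt]
    rw [pointHom_some]
    have : (fun x : G => code (x⁻¹ • g • ω)) = act g (fun x : G => code (x⁻¹ • ω)) := by
      funext x
      simp only [act, mul_inv_rev, inv_inv, mul_smul]
    rw [this]
  have hcardX : N ≤ Fintype.card X := by
    have h4 : Fintype.card F ≤ Fintype.card X := by
      apply Fintype.card_le_of_injective (fun c : F => (some ((fun _ => c), w0) : X))
      intro c c' h
      have h5 := congrArg Prod.fst (Option.some.inj h)
      exact congrFun h5 (1 : G)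
    omega
  have hB : ∀ g, ∀ b ∈ univ.filter (fun b : Finset (Fin (Fintype.card X)) => b.map e.symm.toEmbedding ∈ 𝓑),
      b.map (ψ g).toEmbedding ∈ univ.filter (fun b : Finset (Fin (Fintype.card X)) => b.map e.symm.toEmbedding ∈ 𝓑) := by
    intro g b hb
    rw [mem_filter] at hb ⊢
    refine ⟨mem_univ _, ?_⟩
    have h6 := h3 g _ hb.2
    have h7 : (b.map (ψ g).toEmbedding).map e.symm.toEmbedding =
        (b.map e.symm.toEmbedding).map (pointHom G F W g).toEmbedding := by
      rw [map_map, map_map]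
      congr 1
      ext x
      simp [ψ]
    rw [h7]
    exact h6
  refine ⟨Fintype.card X, univ.filter (fun b => b.map e.symm.toEmbedding ∈ 𝓑), hcardX, ?_, ?_, ?_,
    ψ, ?_, ?_, fun ω => e (pt ω), fun ω ω' h => hpt (e.injective h), ?_⟩
  · have hxy : (none : X) ≠ some ((fun _ => 0), w0) := by simp
    obtain ⟨B, ⟨hB, _, _⟩, _⟩ := h2 _ _ hxy
    rw [← h1 B hB]
    exact card_le_univ B
  · intro b hb
    rw [mem_filter] at hb
    have := h1 _ hb.2
    rwa [card_map] at this
  · intro x y hxy
    obtain ⟨B, ⟨hB, hx, hy⟩, huniq⟩ := h2 (e.symm x) (e.symm y)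
      (fun h => hxy (e.symm.injective h))
    refine ⟨B.map e.toEmbedding, ⟨?_, ?_, ?_⟩, ?_⟩
    · rw [mem_filter]
      exact ⟨mem_univ _, by rw [hmm]; exact hB⟩
    · rw [mem_map]
      exact ⟨e.symm x, hx, by simp⟩
    · rw [mem_map]
      exact ⟨e.symm y, hy, by simp⟩
    · rintro C ⟨hC, hxC, hyC⟩
      rw [mem_filter] at hC
      have h4 := huniq (C.map e.symm.toEmbedding) ⟨hC.2, mem_map_of_mem _ hxC,
        mem_map_of_mem _ hyC⟩
      rw [← hmm' C, h4]
  · intro g h hgh
    apply pointHom_injective (F := F) (W := W)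
    refine Equiv.ext fun x => ?_
    have h5 := congrArg (fun σ : Equiv.Perm (Fin (Fintype.card X)) => σ (e x)) hgh
    simpa [ψ] using h5
  · intro g
    apply eq_of_subset_of_card_le
    · intro c hc
      obtain ⟨b, hb, rfl⟩ := mem_image.1 hc
      have h4 := hB g b hb
      rw [map_eq_image] at h4
      exact h4
    · rw [card_image_of_injective]
      intro b c hbc
      exact image_injective (ψ g).injective hbc
  · intro g ω
    change e (pt (g • ω)) = e (pointHom G F W g (e.symm (e (pt ω))))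
    rw [hpt2, e.symm_apply_apply]

theorem ext_univ.{u, w} (k : ℕ) (hk : 3 ≤ k) (G : Type u) (Ω : Type w) [Group G] [Finite G]
    [Finite Ω] [MulAction G Ω] (N : ℕ) :
    ∃ (v : ℕ) (B : Finset (Finset (Fin v))), N ≤ v ∧ k ≤ v ∧ (∀ b ∈ B, b.card = k) ∧
      (∀ x y : Fin v, x ≠ y → ∃! b, b ∈ B ∧ x ∈ b ∧ y ∈ b) ∧
      ∃ ψ : G →* Equiv.Perm (Fin v), Function.Injective ψ ∧
        (∀ g, B.image (fun b => b.image (ψ g)) = B) ∧
        ∃ e : Ω → Fin v, Function.Injective e ∧ ∀ (g : G) (ω : Ω), e (g • ω) = ψ g (e ω) := by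
  classical
  obtain ⟨n, ⟨e⟩⟩ := Finite.exists_equiv_fin G
  obtain ⟨m, ⟨eΩ⟩⟩ := Finite.exists_equiv_fin Ω
  let f : G →* Equiv.Perm (Fin n) :=
    { toFun := fun g => (e.symm.trans (Equiv.mulLeft g)).trans e
      map_one' := by ext x; simp
      map_mul' := fun g h => by ext x; simp }
  have hf : Function.Injective f := by
    intro g h hgh
    have h1 := congrArg (fun σ : Equiv.Perm (Fin n) => σ (e 1)) hgh
    simpa [f] using h1
  let i : G ≃* f.range := MonoidHom.ofInjective hf
  let inst : MulAction f.range (Fin m) :=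
    { smul := fun g x => eΩ (i.symm g • eΩ.symm x)
      one_smul := fun x => by
        change eΩ (i.symm 1 • eΩ.symm x) = x
        rw [map_one, one_smul, eΩ.apply_symm_apply]
      mul_smul := fun g h x => by
        change eΩ (i.symm (g * h) • eΩ.symm x) = eΩ (i.symm g • eΩ.symm (eΩ (i.symm h • eΩ.symm x)))
        rw [map_mul, mul_smul, eΩ.symm_apply_apply] }
  obtain ⟨v, B, hN, hv, h1, h2, ψ, hψ, h3, c, hc, h4⟩ := ext_zero k hk f.range (Fin m) N
  refine ⟨v, B, hN, hv, h1, h2, ψ.comp i.toMonoidHom, hψ.comp i.injective, fun g => h3 (i g),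
    fun ω => c (eΩ ω), hc.comp eΩ.injective, fun g ω => ?_⟩
  have h5 := h4 (i g) (eΩ ω)
  have h6 : i g • eΩ ω = eΩ (g • ω) := by
    change eΩ (i.symm (i g) • eΩ.symm (eΩ ω)) = _
    rw [i.symm_apply_apply, eΩ.symm_apply_apply]
  rw [h6] at h5
  exact h5

end Pool.Agent.Y342.EFF
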